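import Pool.Agent.Helper501.Bpa.Main

/-!
Star bodies of bounded length. `len t` is the length of the longest terminating run of `t` which
does not enter the body of a star, `starLen t` the maximum of `len s` over all star bodies `s` of
`t`. The transfer argument of `Pool.Agent.Helper501.Bpa` works for all equations with short star
bodies, of arbitrary size and in arbitrarily many variables.
-/

namespace Pool.Agent.Y564.BPA

open Pool.Agent.Helper501.Bpa Relation Term

variable {L : Type*}

/-- length of the longest terminating run which does not enter the body of a star -/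
def len : Term L → ℕ
  | atom _ => 1
  | dead => 0
  | plus s t => max (len s) (len t)
  | seq s t => len s + len t
  | kstar _ t => len t

/-- the greatest length of a star body -/
def starLen : Term L → ℕ
  | atom _ => 0
  | dead => 0
  | plus s t => max (starLen s) (starLen t)
  | seq s t => max (starLen s) (starLen t)
  | kstar s t => max (len s) (max (starLen s) (starLen t))

/-- all star bodies have length less than `n` -/
def Short (n : ℕ) : Term L → Prop
  | atom _ => True
  | dead => True
  | plus s t => Short n s ∧ Short n t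
  | seq s t => Short n s ∧ Short n t
  | kstar s t => len s < n ∧ Short n s ∧ Short n t

theorem short_of_starLen {n : ℕ} {t : Term L} (h : starLen t < n) : Short n t := by
  induction t with
  | atom a => trivial
  | dead => trivial
  | plus s t ihs iht =>
    simp only [starLen, max_lt_iff] at h; exact ⟨ihs h.1, iht h.2⟩
  | seq s t ihs iht =>
    simp only [starLen, max_lt_iff] at h; exact ⟨ihs h.1, iht h.2⟩
  | kstar s t ihs iht =>
    simp only [starLen, max_lt_iff] at h; exact ⟨h.1, ihs h.2.1, iht h.2.2⟩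

variable {n : ℕ}

theorem short_step {t : Term L} (h : Short n t) {a : L} {w : List (Term L)} (hw : St t a w) :
    ∀ u ∈ w, Short n u := by
  induction t generalizing w with
  | atom b => rw [hw.2]; simp
  | dead => exact absurd hw (by simp [St])
  | plus s t ihs iht =>
    rcases hw with hw | hw
    · exact ihs h.1 hw
    · exact iht h.2 hw
  | seq s t ihs iht =>
    obtain ⟨v, h1, rfl⟩ := hw
    intro u hu
    rw [List.mem_append, List.mem_singleton] at hu
    rcases hu with hu | rfl
    · exact ihs h.1 h1 u hu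
    · exact h.2
  | kstar s t ihs iht =>
    rcases hw with ⟨v, h1, rfl⟩ | hw
    · intro u hu
      rw [List.mem_append, List.mem_singleton] at hu
      rcases hu with hu | rfl
      · exact ihs h.2.1 h1 u hu
      · exact h
    · exact iht h.2.2 hw

theorem short_lr {live : L → Prop} {D D' : List (Term L)} (hD : LR live D D') (h : ∀ u ∈ D, Short n u) :
    ∀ u ∈ D', Short n u := by
  induction hD with
  | refl => exact h
  | @tail E E' _ h1 ih =>
    obtain ⟨a, _, h1⟩ := h1
    cases E with
    | nil => exact absurd h1 (by simp [Cf])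
    | cons t R =>
      obtain ⟨w, h2, rfl⟩ := h1
      intro u hu
      rw [List.mem_append] at hu
      rcases hu with hu | hu
      · exact short_step (ih t (by simp)) h2 u hu
      · exact ih u (by simp [hu])

variable {live : L → Prop} {F : L → ZMod n → ZMod n → Prop}

theorem yt_len {t : Term L} (h : YT live F t) :
    ∃ m : ℕ, 1 ≤ m ∧ m ≤ len t ∧ ∀ i j, Ty live F t i j → j = i + (m : ZMod n) := by
  induction t with
  | atom z => exact ⟨1, le_rfl, le_rfl, fun i j hij => by rw [Nat.cast_one]; exact h.2.1 i j hij⟩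
  | dead => exact absurd h (by simp [YT])
  | plus s t ihs iht =>
    rcases h with h | h
    · obtain ⟨m, h1, h2, h3⟩ := ihs h
      exact ⟨m, h1, le_trans h2 (le_max_left _ _), fun i j hij => h3 i j hij.1⟩
    · obtain ⟨m, h1, h2, h3⟩ := iht h
      exact ⟨m, h1, le_trans h2 (le_max_right _ _), fun i j hij => h3 i j hij.2⟩
  | seq s t ihs iht =>
    obtain ⟨m, h1, h2, h3⟩ := ihs h.1
    obtain ⟨m', h1', h2', h3'⟩ := iht h.2
    refine ⟨m + m', by omega, by simp only [len]; omega, ?_⟩
    rintro i j ⟨k, h4, h5⟩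
    rw [h3' _ _ (h5 h.1.ct), h3 _ _ h4]
    push_cast
    ring
  | kstar s t ihs iht =>
    obtain ⟨m, h1, h2, h3⟩ := iht h
    exact ⟨m, h1, h2, fun i j hij => h3 i j hij.2⟩

theorem acc_cons' {t : Term L} (hS : Short n t) {i j : ZMod n} (hT : Ty live F t i j) {R : List (Term L)}
    (hR : YT live F t → Acc (Ys live F) R) : Acc (Ys live F) (t :: R) := by
  induction t generalizing i j R with
  | atom a =>
    constructor
    rintro D ⟨z, hz, w, hw, rfl⟩
    obtain ⟨rfl, rfl⟩ := hw
    exact hR hz
  | dead =>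
    constructor
    rintro D ⟨z, hz, w, hw, rfl⟩
    exact absurd hw (by simp [St])
  | plus s t ihs iht =>
    have h1 := ihs hS.1 hT.1 (R := R) (fun h => hR (Or.inl h))
    have h2 := iht hS.2 hT.2 (R := R) (fun h => hR (Or.inr h))
    constructor
    rintro D ⟨z, hz, w, hw, rfl⟩
    rcases hw with hw | hw
    · exact h1.inv ⟨z, hz, w, hw, rfl⟩
    · exact h2.inv ⟨z, hz, w, hw, rfl⟩
  | seq s t ihs iht =>
    obtain ⟨m, h1, h2⟩ := hT
    have h3 := ihs hS.1 h1 (R := t :: R) (fun hs => iht hS.2 (h2 hs.ct) (fun ht => hR ⟨hs, ht⟩))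
    constructor
    rintro D ⟨z, hz, w, ⟨v, hw, rfl⟩, rfl⟩
    exact h3.inv ⟨z, hz, v, hw, by simp⟩
  | kstar s t ihs iht =>
    have hno : ¬ YT live F s := by
      intro h
      obtain ⟨m, h1, h2, h3⟩ := yt_len h
      have h4 := h3 i i hT.1
      have h5 : ((m : ℕ) : ZMod n) = 0 := by
        have : i + 0 = i + (m : ZMod n) := by rw [add_zero]; exact h4
        exact (add_left_cancel this).symm
      rw [ZMod.natCast_eq_zero_iff] at h5
      have := Nat.le_of_dvd (by omega) h5
      have := hS.1
      omega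
    have h1 := ihs hS.2.1 hT.1 (R := kstar s t :: R) (fun h => absurd h hno)
    have h2 := iht hS.2.2 hT.2 (R := R) hR
    constructor
    rintro D ⟨z, hz, w, hw, rfl⟩
    rcases hw with ⟨v, hw, rfl⟩ | hw
    · exact h1.inv ⟨z, hz, v, hw, by simp⟩
    · exact h2.inv ⟨z, hz, w, hw, rfl⟩

theorem acc_list' {D : List (Term L)} (hS : ∀ u ∈ D, Short n u) {i j : ZMod n} (hT : TyL live F D i j) :
    Acc (Ys live F) D := by
  induction D generalizing i with
  | nil =>
    constructor
    rintro D ⟨z, hz, hw⟩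
    exact absurd hw (by simp [Cf])
  | cons t R ih =>
    obtain ⟨m, h1, h2⟩ := hT
    exact acc_cons' (hS t (by simp)) h1 (fun h => ih (fun u hu => hS u (by simp [hu])) (h2 h.ct))

theorem accOK_short {L M : Type*} {x y : M} {σ : L → Term M} {l : Term L} (h : Short n l) : AccOK x y n σ l := by
  intro D k j hD _ _ hT
  exact acc_list' (short_lr hD (by simpa using h)) hT

variable {A : Type*}

/-- transfer along derivations -/
theorem der_transfer' {n : ℕ} (hn : 2 ≤ n) {E : Set (Term (A ⊕ ℕ) × Term (A ⊕ ℕ))}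
    (hL : ∀ t u, Der E t u → LB [t] [u])
    (hE : ∀ t u, (t, u) ∈ E → (Short n t ∧ Short n u) ∨
      ((∀ k k', Occ (Sum.inr k) t → Occ (Sum.inr k') t → k = k') ∧
        (∀ k k', Occ (Sum.inr k) u → Occ (Sum.inr k') u → k = k')))
    {t u : Term (A ⊕ ℕ)} (h : Der E t u) :
    Tf (Sum.inr 0) (Sum.inr 1) n t u ∧ Tf (Sum.inr 0) (Sum.inr 1) n u t := by
  have hxy : (Sum.inr 0 : A ⊕ ℕ) ≠ Sum.inr 1 := by simp
  induction h with
  | @ax t u h τ =>
    have hB : LB [t] [u] := by
      have := hL _ _ (Der.ax (E := E) h (fun k => atom (Sum.inr k)))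
      rwa [osub_atom, inst_atom, inst_atom] at this
    have hA : AccOK (Sum.inr 0) (Sum.inr 1) n (osub τ) t ∧ AccOK (Sum.inr 0) (Sum.inr 1) n (osub τ) u := by
      rcases hE t u h with ⟨h1, h2⟩ | ⟨h1, h2⟩
      · exact ⟨accOK_short h1, accOK_short h2⟩
      · exact ⟨accOK_one (p := 0) (q := 1) (σ := osub τ) (by norm_num) (fun a => rfl) h1,
          accOK_one (p := 0) (q := 1) (σ := osub τ) (by norm_num) (fun a => rfl) h2⟩
    exact ⟨⟨fun hW h => ax_inv hxy hn hB hA.1 hW h, fun hW hI i j h => ax_ty hxy hn hB hA.1 hW hI h⟩,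
      ⟨fun hW h => ax_inv hxy hn hB.symm hA.2 hW h, fun hW hI i j h => ax_ty hxy hn hB.symm hA.2 hW hI h⟩⟩
  | refl t => exact ⟨Tf.refl t, Tf.refl t⟩
  | symm _ ih => exact ⟨ih.2, ih.1⟩
  | trans h1 h2 ih1 ih2 =>
    exact ⟨ih1.1.trans (hL _ _ h1) ih2.1, ih2.2.trans (hL _ _ h2).symm ih1.2⟩
  | plus h1 h2 ih1 ih2 => exact ⟨ih1.1.plus ih2.1, ih1.2.plus ih2.2⟩
  | seq h1 h2 ih1 ih2 => exact ⟨ih1.1.seq (hL _ _ h1) ih2.1, ih1.2.seq (hL _ _ h1).symm ih2.2⟩
  | kstar h1 h2 ih1 ih2 =>
    exact ⟨ih1.1.kstar (hL _ _ h1) (hL _ _ h2) ih2.1, ih1.2.kstar (hL _ _ h1).symm (hL _ _ h2).symm ih2.2⟩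

/-- validity is a congruence closed under substitution: derivations from valid equations are valid -/
theorem der_valid {E : Set (Term (A ⊕ ℕ) × Term (A ⊕ ℕ))} (hE : ∀ e ∈ E, Valid e.1 e.2)
    {t u : Term (A ⊕ ℕ)} (h : Der E t u) : Valid t u := by
  have hmono : ∀ {t u : Term (A ⊕ ℕ)}, Der E t u →
      Der {e : Term (A ⊕ ℕ) × Term (A ⊕ ℕ) | Valid e.1 e.2} t u := by
    intro t u h
    induction h with
    | ax h τ => exact Der.ax (hE _ h) τ
    | refl t => exact Der.refl t
    | symm _ ih => exact ih.symm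
    | trans _ _ ih1 ih2 => exact ih1.trans ih2
    | plus _ _ ih1 ih2 => exact ih1.plus ih2
    | seq _ _ ih1 ih2 => exact ih1.seq ih2
    | kstar _ _ ih1 ih2 => exact ih1.kstar ih2
  exact (axiomatization_valid A t u).1 (hmono h)

/-- Equation number `n` cannot be derived from valid equations which have at most one variable or
star bodies of length at most `n`. -/
theorem comb_not_der [Nonempty A] {n : ℕ} {E : Set (Term (A ⊕ ℕ) × Term (A ⊕ ℕ))}
    (hE : ∀ e ∈ E, Valid e.1 e.2)
    (hS : ∀ e ∈ E, (∃ x y : ℕ, x ≠ y ∧ VarIn x e ∧ VarIn y e) → starLen e.1 < n + 2 ∧ starLen e.2 < n + 2) :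
    ¬ Der E (kstar (comb (atom (Sum.inr 0)) (atom (Sum.inr 1)) (n + 1)) dead)
      (kstar (plus (atom (Sum.inr 0)) (atom (Sum.inr 1))) dead) := by
  intro hder
  have hL : ∀ t u, Der E t u → LB [t] [u] := fun t u h => lb_of_valid (der_valid hE h)
  have hn : 2 ≤ n + 2 := by omega
  have hxy : (Sum.inr 0 : A ⊕ ℕ) ≠ Sum.inr 1 := by simp
  have key := der_transfer' (n := n + 2) hn hL ?_ hder
  · refine not_inv_P hxy hn (key.1.1 ?_ (inv_comb hn))
    exact W_of_LB (lb_of_valid (comb_valid_eq (n + 1))).symm W_P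
  · intro t u htu
    by_cases h : ∃ x y : ℕ, x ≠ y ∧ VarIn x (t, u) ∧ VarIn y (t, u)
    · left
      obtain ⟨h1, h2⟩ := hS (t, u) htu h
      exact ⟨short_of_starLen h1, short_of_starLen h2⟩
    · right
      push Not at h
      constructor
      · intro k k' h1 h2
        by_contra hne
        exact h k k' hne (Or.inl h1) (Or.inl h2)
      · intro k k' h1 h2
        by_contra hne
        exact h k k' hne (Or.inr h1) (Or.inr h2)

end Pool.Agent.Y564.BPA
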